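import Mathlib

/-!
Progression-free subsets of `F_p^n` whose density per dimension tends to one.
-/

namespace Pool.Agent.H192.LD

open Finset Filter Topology

/-- `A ⊆ F_p^n` contains no nontrivial `k`-term progression `x, x+y, …, x+(k-1)y` with `y ≠ 0`. -/
def APFree (k p n : ℕ) (A : Finset (Fin n → ZMod p)) : Prop :=
  ∀ x y : Fin n → ZMod p, (∀ i : ℕ, i < k → x + i • y ∈ A) → y = 0

/-- `r_k(F_p^n)`: the largest size of a subset of `F_p^n` without nontrivial `k`-term
progressions. -/
noncomputable def r (k p n : ℕ) : ℕ :=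
  sSup {m : ℕ | ∃ A : Finset (Fin n → ZMod p), APFree k p n A ∧ A.card = m}

section
variable {k p : ℕ} [hp : Fact p.Prime]

lemma bdd (n : ℕ) : BddAbove {N | ∃ A : Finset (Fin n → ZMod p), APFree k p n A ∧ A.card = N} := by
  refine ⟨p ^ n, ?_⟩
  rintro N ⟨A, _, rfl⟩
  calc A.card ≤ (univ : Finset (Fin n → ZMod p)).card := card_le_univ A
    _ = p ^ n := by simp [ZMod.card]

lemma le_r {n : ℕ} {A : Finset (Fin n → ZMod p)} (h : APFree k p n A) : A.card ≤ r k p n :=
  le_csSup (bdd n) ⟨A, h, rfl⟩

lemma r_le (n : ℕ) : r k p n ≤ p ^ n := by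
  apply csSup_le'
  rintro N ⟨A, _, rfl⟩
  calc A.card ≤ (univ : Finset (Fin n → ZMod p)).card := card_le_univ A
    _ = p ^ n := by simp [ZMod.card]

lemma exists_r (n : ℕ) (hk : 1 ≤ k) :
    ∃ A : Finset (Fin n → ZMod p), APFree k p n A ∧ A.card = r k p n := by
  have hne : {N | ∃ A : Finset (Fin n → ZMod p), APFree k p n A ∧ A.card = N}.Nonempty := by
    refine ⟨0, ∅, ?_, rfl⟩
    intro x y h
    have := h 0 (by omega)
    simp at this
  exact Nat.sSup_mem hne (bdd n)

lemma one_le_r (n : ℕ) (hk : 2 ≤ k) : 1 ≤ r k p n := by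
  have h : APFree k p n ({0} : Finset (Fin n → ZMod p)) := by
    intro x y h
    have h0 := h 0 (by omega)
    have h1 := h 1 (by omega)
    simp at h0 h1
    rw [h0] at h1
    simpa using h1
  have := le_r h
  simpa using this

lemma r_mul_le (m n : ℕ) (hk : 1 ≤ k) : r k p m * r k p n ≤ r k p (m + n) := by
  classical
  obtain ⟨A, hA, hAc⟩ := exists_r (k := k) (p := p) m hk
  obtain ⟨B, hB, hBc⟩ := exists_r (k := k) (p := p) n hk
  set e := Fin.appendEquiv (α := ZMod p) m n with he
  have hfree : APFree k p (m + n) ((A ×ˢ B).map e.toEmbedding) := by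
    intro x y hcon
    have hmem : ∀ j < k, (fun i => x (Fin.castAdd n i)) + j • (fun i => y (Fin.castAdd n i)) ∈ A ∧
        (fun i => x (Fin.natAdd m i)) + j • (fun i => y (Fin.natAdd m i)) ∈ B := by
      intro j hj
      have := hcon j hj
      rw [Finset.mem_map] at this
      obtain ⟨⟨a, b⟩, hab, hE⟩ := this
      rw [mem_product] at hab
      have hE' : Fin.append a b = x + j • y := hE
      constructor
      · have : (fun i => x (Fin.castAdd n i)) + j • (fun i => y (Fin.castAdd n i)) = a := by
          funext i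
          have := congrFun hE' (Fin.castAdd n i)
          rw [Fin.append_left] at this
          simpa using this.symm
        rw [this]; exact hab.1
      · have : (fun i => x (Fin.natAdd m i)) + j • (fun i => y (Fin.natAdd m i)) = b := by
          funext i
          have := congrFun hE' (Fin.natAdd m i)
          rw [Fin.append_right] at this
          simpa using this.symm
        rw [this]; exact hab.2
    have hy1 := hA _ _ fun j hj => (hmem j hj).1
    have hy2 := hB _ _ fun j hj => (hmem j hj).2
    funext i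
    refine Fin.addCases (fun i => ?_) (fun i => ?_) i
    · exact congrFun hy1 i
    · exact congrFun hy2 i
  have := le_r hfree
  rw [card_map, card_product, hAc, hBc] at this
  exact this

/-- The limit exists (Fekete) and is an upper bound. -/
lemma exists_lim (hk : 2 ≤ k) :
    ∃ L : ℝ, Tendsto (fun n : ℕ => Real.log (r k p n) / n) atTop (𝓝 L) ∧
      ∀ n : ℕ, n ≠ 0 → Real.log (r k p n) / n ≤ L := by
  have hsub : Subadditive (fun n : ℕ => -Real.log (r k p n)) := by
    intro m n
    have h1 : (0 : ℝ) < r k p m := by exact_mod_cast one_le_r m hk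
    have h2 : (0 : ℝ) < r k p n := by exact_mod_cast one_le_r n hk
    have h3 : Real.log (r k p m * r k p n : ℝ) ≤ Real.log (r k p (m + n)) := by
      apply Real.log_le_log (by positivity)
      exact_mod_cast r_mul_le m n (by omega)
    rw [Real.log_mul h1.ne' h2.ne'] at h3
    simp only
    linarith
  have hbdd : BddBelow (Set.range fun n : ℕ => -Real.log (r k p n) / n) := by
    refine ⟨-Real.log p, ?_⟩
    rintro _ ⟨n, rfl⟩
    have hp1 : (1 : ℝ) < p := by exact_mod_cast hp.out.one_lt
    rcases Nat.eq_zero_or_pos n with hn | hn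
    · subst hn
      simp only [Nat.cast_zero, div_zero]
      have := Real.log_pos hp1
      linarith
    · have hn' : (0 : ℝ) < n := by exact_mod_cast hn
      simp only
      rw [le_div_iff₀ hn']
      have h1 : (0 : ℝ) < r k p n := by exact_mod_cast one_le_r n hk
      have h2 : Real.log (r k p n) ≤ Real.log ((p : ℝ) ^ n) := by
        apply Real.log_le_log h1
        exact_mod_cast r_le n
      rw [Real.log_pow] at h2
      nlinarith
  refine ⟨-hsub.lim, ?_, ?_⟩
  · have := (hsub.tendsto_lim hbdd).neg
    refine this.congr ?_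
    intro n
    simp [neg_div]
  · intro n hn
    have := hsub.lim_le_div hbdd hn
    simp only [neg_div] at this
    linarith

/-- The limit `λ_{k,p}` in the form of the problem. -/
lemma exists_lam (hk : 2 ≤ k) :
    ∃ L : ℝ, 0 < L ∧ Tendsto (fun n : ℕ => (r k p n : ℝ) ^ (1 / (n : ℝ))) atTop (𝓝 L) ∧
      (∀ n : ℕ, n ≠ 0 → (r k p n : ℝ) ^ (1 / (n : ℝ)) ≤ L) ∧
      Tendsto (fun n : ℕ => Real.log (r k p n) / n) atTop (𝓝 (Real.log L)) := by
  obtain ⟨L, hL, hL'⟩ := exists_lim (k := k) (p := p) hk
  have e : ∀ n : ℕ, (r k p n : ℝ) ^ (1 / (n : ℝ)) = Real.exp (Real.log (r k p n) / n) := by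
    intro n
    have h1 : (0 : ℝ) < r k p n := by exact_mod_cast one_le_r n hk
    rw [Real.rpow_def_of_pos h1]
    congr 1
    ring
  refine ⟨Real.exp L, Real.exp_pos _, ?_, ?_, ?_⟩
  · simp only [e]
    exact (Real.continuous_exp.tendsto _).comp hL
  · intro n hn
    rw [e]
    exact Real.exp_le_exp.mpr (hL' n hn)
  · rw [Real.log_exp]; exact hL

/-- Pigeonhole over the colour and the sum of the squares. -/
theorem card_le {n R : ℕ} (hk : 1 ≤ k) (A : Finset (Fin n → ZMod p))
    (χ : (Fin n → ZMod p) → Fin R)
    (h : ∀ x y : Fin n → ZMod p, (∀ j < k, x + j • y ∈ A ∧ χ (x + j • y) = χ x) →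
      ∃ i q : ℕ, 0 < q ∧ q < p ∧ i + 2 * q < k ∧
        ∀ l, ((x + (i + 2 * q) • y) l).val + ((x + i • y) l).val = 2 * ((x + (i + q) • y) l).val) :
    A.card ≤ R * (n * p ^ 2 + 1) * r k p n := by
  classical
  have hp0 : 0 < p := hp.out.pos
  set g : (Fin n → ZMod p) → Fin R × ℕ := fun x => (χ x, ∑ l, (x l).val ^ 2) with hg
  set T : Finset (Fin R × ℕ) := univ ×ˢ range (n * p ^ 2 + 1) with hT
  have hmaps : ∀ x ∈ A, g x ∈ T := by
    intro x _
    rw [hT, mem_product, mem_range]
    refine ⟨mem_univ _, ?_⟩
    have : ∑ l, (x l).val ^ 2 ≤ ∑ _l : Fin n, p ^ 2 :=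
      Finset.sum_le_sum fun l _ => Nat.pow_le_pow_left (ZMod.val_lt (x l)).le 2
    simp only [sum_const, card_univ, Fintype.card_fin, smul_eq_mul] at this
    simp only [hg]
    omega
  have hfib : ∀ c ∈ T, (A.filter fun x => g x = c).card ≤ r k p n := by
    intro c _
    apply le_r
    intro x y hxy
    have hx0 : g x = c := by
      have := hxy 0 (by omega)
      rw [mem_filter] at this
      simpa using this.2
    have hmem : ∀ j < k, x + j • y ∈ A ∧ g (x + j • y) = c := fun j hj => by
      have := hxy j hj
      rwa [mem_filter] at this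
    obtain ⟨i, q, hq, hqp, hik, hl⟩ := h x y fun j hj => by
      refine ⟨(hmem j hj).1, ?_⟩
      have h1 := (hmem j hj).2
      rw [← hx0] at h1
      exact congrArg Prod.fst h1
    have hs : ∀ j < k, ∑ l, ((x + j • y) l).val ^ 2 = c.2 := fun j hj => by
      have h1 := (hmem j hj).2
      exact congrArg Prod.snd h1
    have h0 := hs i (by omega)
    have h1 := hs (i + q) (by omega)
    have h2 := hs (i + 2 * q) hik
    have hz : ∑ l, ((((x + (i + q) • y) l).val : ℤ) - ((x + i • y) l).val) ^ 2 = 0 := by
      have e : ∀ l, 2 * ((((x + (i + q) • y) l).val : ℤ) - ((x + i • y) l).val) ^ 2 =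
          (((x + (i + 2 * q) • y) l).val : ℤ) ^ 2 + (((x + i • y) l).val : ℤ) ^ 2
            - 2 * (((x + (i + q) • y) l).val : ℤ) ^ 2 := by
        intro l
        have h3 : (((x + (i + 2 * q) • y) l).val : ℤ) + ((x + i • y) l).val =
            2 * ((x + (i + q) • y) l).val := by exact_mod_cast hl l
        have h4 : (((x + (i + 2 * q) • y) l).val : ℤ) =
            2 * ((x + (i + q) • y) l).val - ((x + i • y) l).val := by linarith
        rw [h4]; ring
      have h5 : 2 * ∑ l, ((((x + (i + q) • y) l).val : ℤ) - ((x + i • y) l).val) ^ 2 = 0 := by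
        rw [mul_sum, sum_congr rfl fun l _ => e l, sum_sub_distrib, sum_add_distrib, ← mul_sum]
        have h0' : ∑ l, (((x + i • y) l).val : ℤ) ^ 2 = c.2 := by exact_mod_cast h0
        have h1' : ∑ l, (((x + (i + q) • y) l).val : ℤ) ^ 2 = c.2 := by exact_mod_cast h1
        have h2' : ∑ l, (((x + (i + 2 * q) • y) l).val : ℤ) ^ 2 = c.2 := by exact_mod_cast h2
        rw [h0', h1', h2']; ring
      linarith
    have hz' := (Finset.sum_eq_zero_iff_of_nonneg (fun l _ => sq_nonneg _)).1 hz
    have heq : x + (i + q) • y = x + i • y := by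
      funext l
      have h6 := pow_eq_zero_iff (two_ne_zero) |>.1 (hz' l (mem_univ l))
      have h7 : ((x + (i + q) • y) l).val = ((x + i • y) l).val := by omega
      exact ZMod.val_injective p h7
    have hqy : q • y = 0 := by
      have : x + (i • y + q • y) = x + i • y := by rw [← add_smul]; exact heq
      have := add_left_cancel this
      simpa using this
    funext l
    have h8 : (q : ZMod p) * y l = 0 := by
      have := congrFun hqy l
      simpa [nsmul_eq_mul] using this
    rcases mul_eq_zero.1 h8 with h9 | h9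
    · exfalso
      have := (ZMod.natCast_eq_zero_iff q p).1 h9
      exact absurd (Nat.le_of_dvd hq this) (by omega)
    · exact h9
  calc A.card = ∑ c ∈ T, (A.filter fun x => g x = c).card :=
        Finset.card_eq_sum_card_fiberwise hmaps
    _ ≤ ∑ _c ∈ T, r k p n := sum_le_sum hfib
    _ = R * (n * p ^ 2 + 1) * r k p n := by
        rw [sum_const, smul_eq_mul, hT, card_product, card_range, card_univ, Fintype.card_fin]

end

/-- A random colouring has no monochromatic edge. -/
lemma exists_colouring {Ω P : Type*} [Fintype Ω] [DecidableEq Ω] [Fintype P] (m R : ℕ)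
    (hR : 0 < R) (E : P → Fin (m + 1) → Ω) (hc : Fintype.card P < R ^ m) :
    ∃ f : Ω → Fin R, ∀ c : P, Function.Injective (E c) → ∃ i, f (E c i) ≠ f (E c 0) := by
  classical
  by_contra hcon
  push Not at hcon
  choose c hcinj hc' using hcon
  -- for every edge there are few colourings which are constant on it
  have key : ∀ e : P, Function.Injective (E e) →
      ((univ : Finset (Ω → Fin R)).filter fun f => ∀ i, f (E e i) = f (E e 0)).card * R ^ m ≤
        R ^ Fintype.card Ω := by
    intro e he
    have h1 : R ^ Fintype.card Ω = (univ : Finset (Ω → Fin R)).card := by simp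
    have h2 : R ^ m = (univ : Finset (Fin m → Fin R)).card := by simp
    rw [h1, h2, ← card_product]
    have hpre : ∀ ω : Ω, ω ∈ Set.range (fun i : Fin m => E e i.succ) →
        ∃ i : Fin m, E e i.succ = ω := fun ω h => h
    refine card_le_card_of_injOn (fun fg => fun ω =>
      if h : ∃ i : Fin m, E e i.succ = ω then fg.2 h.choose else fg.1 ω)
      (fun _ _ => mem_univ _) ?_
    rintro ⟨f, g⟩ hf ⟨f', g'⟩ hf' hEq
    simp only [coe_product, Set.mem_prod, mem_coe, mem_filter, mem_univ, true_and, and_true]
      at hf hf'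
    simp only at hEq
    have hg : g = g' := by
      funext i
      have h3 := congrFun hEq (E e i.succ)
      have h4 : ∃ i' : Fin m, E e i'.succ = E e i.succ := ⟨i, rfl⟩
      simp only [dif_pos h4] at h3
      have h5 : h4.choose = i := by
        have := h4.choose_spec
        exact Fin.succ_injective _ (he this)
      rwa [h5] at h3
    have hoff : ∀ ω, (¬ ∃ i : Fin m, E e i.succ = ω) → f ω = f' ω := by
      intro ω hω
      have h3 := congrFun hEq ω
      simpa only [dif_neg hω] using h3
    have hzero : f (E e 0) = f' (E e 0) := by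
      apply hoff
      rintro ⟨i, hi⟩
      exact absurd (he hi) (Fin.succ_ne_zero i)
    have hff : f = f' := by
      funext ω
      by_cases hω : ∃ i : Fin m, E e i.succ = ω
      · obtain ⟨i, rfl⟩ := hω
        rw [hf i.succ, hf' i.succ, hzero]
      · exact hoff ω hω
    rw [hff, hg]
  have hcov : (univ : Finset (Ω → Fin R)) ⊆
      (univ.filter fun e : P => Function.Injective (E e)).biUnion fun e =>
        univ.filter fun f => ∀ i, f (E e i) = f (E e 0) := by
    intro f _
    rw [mem_biUnion]
    exact ⟨c f, by simp [hcinj f], by simpa using hc' f⟩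
  have h1 : R ^ Fintype.card Ω * R ^ m ≤ Fintype.card P * R ^ Fintype.card Ω := by
    calc R ^ Fintype.card Ω * R ^ m = (univ : Finset (Ω → Fin R)).card * R ^ m := by simp
      _ ≤ (∑ e ∈ univ.filter fun e : P => Function.Injective (E e),
            ((univ : Finset (Ω → Fin R)).filter fun f => ∀ i, f (E e i) = f (E e 0)).card) * R ^ m := by
          exact Nat.mul_le_mul_right _ ((card_le_card hcov).trans card_biUnion_le)
      _ = ∑ e ∈ univ.filter fun e : P => Function.Injective (E e),
            ((univ : Finset (Ω → Fin R)).filter fun f => ∀ i, f (E e i) = f (E e 0)).card * R ^ m := by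
          rw [sum_mul]
      _ ≤ ∑ _e ∈ univ.filter fun e : P => Function.Injective (E e), R ^ Fintype.card Ω := by
          refine sum_le_sum fun e he => key e ?_
          simpa using he
      _ ≤ Fintype.card P * R ^ Fintype.card Ω := by
          rw [sum_const, smul_eq_mul]
          exact Nat.mul_le_mul_right _ (card_le_univ _)
  have h2 : 0 < R ^ Fintype.card Ω := Nat.pow_pos hR
  have h3 : R ^ m ≤ Fintype.card P := by
    have : R ^ Fintype.card Ω * R ^ m ≤ R ^ Fintype.card Ω * Fintype.card P := by
      rw [mul_comm (R ^ Fintype.card Ω) (Fintype.card P)]; exact h1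
    exact Nat.le_of_mul_le_mul_left this h2
  omega

end Pool.Agent.H192.LD
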