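import Pool.Agent.H192.LD

/-!
Digits of progressions modulo `p`.
-/

namespace Pool.Agent.H192.LD

open Finset Filter Topology

/-- The cell of a term of a progression is determined by approximations of its first term and
of its difference. -/
lemma cell_eq {p M K m j a b : ℕ} (hp : 0 < p) (hM : 0 < M) (hK : 0 < K) (hj : j ≤ m)
    (hf : (m + 1) * p ≤ K * (M * ((a + j * b) % p) % p)) :
    ((K * M * a / p + j * (K * M * b / p)) / K) % M = M * ((a + j * b) % p) / p := by
  obtain ⟨t, ht⟩ : ∃ t, t = (a + j * b) % p := ⟨_, rfl⟩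
  obtain ⟨w, hw⟩ : ∃ w, w = (a + j * b) / p := ⟨_, rfl⟩
  rw [← ht] at hf ⊢
  have h1 : a + j * b = t + p * w := by
    rw [ht, hw]; exact (Nat.mod_add_div _ _).symm
  obtain ⟨A, hA⟩ : ∃ A, A = K * M * a / p := ⟨_, rfl⟩
  obtain ⟨B, hB⟩ : ∃ B, B = K * M * b / p := ⟨_, rfl⟩
  obtain ⟨ra, hra⟩ : ∃ ra, ra = K * M * a % p := ⟨_, rfl⟩
  obtain ⟨rb, hrb⟩ : ∃ rb, rb = K * M * b % p := ⟨_, rfl⟩
  have hA' : K * M * a = ra + p * A := by rw [hA, hra]; exact (Nat.mod_add_div _ _).symm
  have hB' : K * M * b = rb + p * B := by rw [hB, hrb]; exact (Nat.mod_add_div _ _).symm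
  have hra' : ra < p := hra ▸ Nat.mod_lt _ hp
  have hrb' : rb < p := hrb ▸ Nat.mod_lt _ hp
  obtain ⟨c, hc⟩ : ∃ c, c = M * t / p := ⟨_, rfl⟩
  obtain ⟨f, hfd⟩ : ∃ f, f = M * t % p := ⟨_, rfl⟩
  have hMt : M * t = f + p * c := by rw [hc, hfd]; exact (Nat.mod_add_div _ _).symm
  have hf' : f < p := hfd ▸ Nat.mod_lt _ hp
  rw [← hfd] at hf
  rw [← hA, ← hB, ← hc]
  have htp : t < p := ht ▸ Nat.mod_lt _ hp
  have hcM : c < M := by
    rw [hc]
    exact Nat.div_lt_of_lt_mul (by rw [mul_comm p M]; exact Nat.mul_lt_mul_of_pos_left htp hM)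
  have key : p * (A + j * B) + (ra + j * rb) = p * (K * (c + M * w)) + K * f := by
    have e1 : K * M * (a + j * b) = p * (A + j * B) + (ra + j * rb) := by
      calc K * M * (a + j * b) = K * M * a + j * (K * M * b) := by ring
        _ = (ra + p * A) + j * (rb + p * B) := by rw [hA', hB']
        _ = _ := by ring
    have e2 : K * M * (a + j * b) = p * (K * (c + M * w)) + K * f := by
      calc K * M * (a + j * b) = K * (M * t) + K * M * (p * w) := by rw [h1]; ring
        _ = K * (f + p * c) + K * M * (p * w) := by rw [hMt]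
        _ = _ := by ring
    omega
  have hs : ra + j * rb < (m + 1) * p := by
    have : j * rb ≤ m * p := Nat.mul_le_mul hj hrb'.le
    calc ra + j * rb < p + m * p := by omega
      _ = (m + 1) * p := by ring
  have hdiv : (A + j * B) / K = c + M * w := by
    have hKf : K * f < K * p := Nat.mul_lt_mul_of_pos_left hf' hK
    apply Nat.div_eq_of_lt_le
    · -- K (c + M w) ≤ A + j B
      have : p * (K * (c + M * w)) ≤ p * (A + j * B) := by omega
      have := Nat.le_of_mul_le_mul_left this hp
      linarith [mul_comm K (c + M * w)]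
    · have : p * (A + j * B) < p * (K * (c + M * w) + K) := by
        have : p * (K * (c + M * w) + K) = p * (K * (c + M * w)) + K * p := by ring
        omega
      have := Nat.lt_of_mul_lt_mul_left this
      calc A + j * B < K * (c + M * w) + K := this
        _ = (c + M * w + 1) * K := by ring
  rw [hdiv, Nat.add_mul_mod_self_left, Nat.mod_eq_of_lt hcM]

/-- A three-term progression modulo `p` with a small difference is a progression of integers. -/
lemma genuine {p M u v w : ℕ} (hM : 0 < M)
    (hcell : M * u / p = M * v / p) (hv : M * v < (M - 1) * p) (hw : M * w < (M - 1) * p)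
    (hmod : (w + u) % p = (2 * v) % p) : w + u = 2 * v := by
  have hp : 0 < p := by
    rcases Nat.eq_zero_or_pos p with h | h
    · subst h; simp at hv
    · exact h
  have h1 : M * u < M * v + p := by
    have e1 := Nat.mod_add_div (M * u) p
    have e2 := Nat.mod_add_div (M * v) p
    have e3 := Nat.mod_lt (M * u) hp
    rw [hcell] at e1
    omega
  have h2 : M * v < M * u + p := by
    have e1 := Nat.mod_add_div (M * u) p
    have e2 := Nat.mod_add_div (M * v) p
    have e3 := Nat.mod_lt (M * v) hp
    rw [hcell] at e1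
    omega
  have hMp : (M - 1) * p + p = M * p := by
    obtain ⟨N, rfl⟩ : ∃ N, M = N + 1 := ⟨M - 1, by omega⟩
    simp only [Nat.add_sub_cancel]; ring
  have hdvd : (p : ℤ) ∣ ((w : ℤ) + u) - 2 * v := by
    have h3 : ((w + u : ℕ) : ℤ) ≡ ((2 * v : ℕ) : ℤ) [ZMOD p] :=
      (Int.natCast_modEq_iff).2 hmod
    have := h3.symm.dvd
    push_cast at this
    exact this
  have hlt : |((w : ℤ) + u) - 2 * v| < p := by
    rw [abs_lt]
    have h1' : (M : ℤ) * u < M * v + p := by exact_mod_cast h1
    have h2' : (M : ℤ) * v < M * u + p := by exact_mod_cast h2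
    have hv' : (M : ℤ) * v + p < M * p := by
      have : M * v + p < M * p := by omega
      exact_mod_cast this
    have hw' : (M : ℤ) * w + p < M * p := by
      have : M * w + p < M * p := by omega
      exact_mod_cast this
    have hM' : (0 : ℤ) < M := by exact_mod_cast hM
    have hwn : (0 : ℤ) ≤ M * w := by positivity
    have hvn : (0 : ℤ) ≤ M * v := by positivity
    constructor
    · have : (M : ℤ) * (-p) < M * (((w : ℤ) + u) - 2 * v) := by nlinarith
      exact lt_of_mul_lt_mul_left this hM'.le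
    · have : (M : ℤ) * (((w : ℤ) + u) - 2 * v) < M * p := by nlinarith
      exact lt_of_mul_lt_mul_left this hM'.le
  have := Int.eq_zero_of_abs_lt_dvd hdvd hlt
  omega

section
variable {k p : ℕ} [hp : Fact p.Prime]

/-- The digits. -/
def dig (p M K m : ℕ) : Finset ℕ :=
  (range p).filter fun t => (m + 1) * p ≤ K * (M * t % p) ∧ M * t < (M - 1) * p

/-- Points all of whose coordinates are digits. -/
def pts (p n : ℕ) [NeZero p] (D : Finset ℕ) : Finset (Fin n → ZMod p) :=
  univ.filter fun x => ∀ l, (x l).val ∈ D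

lemma card_pts {n : ℕ} {D : Finset ℕ} (hD : D ⊆ range p) : (pts p n D).card = D.card ^ n := by
  classical
  have h1 : pts p n D = Fintype.piFinset fun _ : Fin n => univ.filter fun t : ZMod p => t.val ∈ D := by
    ext x
    simp [pts, Fintype.mem_piFinset]
  rw [h1, Fintype.card_piFinset]
  simp only [prod_const, card_univ, Fintype.card_fin]
  congr 1
  refine card_bij (fun t _ => t.val) (fun t ht => by simpa using ht)
    (fun a _ b _ h => ZMod.val_injective p h) ?_
  intro t ht
  have htp := mem_range.1 (hD ht)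
  refine ⟨(t : ZMod p), ?_, ?_⟩
  · simp [ZMod.val_natCast_of_lt htp, ht]
  · exact ZMod.val_natCast_of_lt htp

lemma ap_apply {n : ℕ} (x y : Fin n → ZMod p) (j : ℕ) (l : Fin n) :
    (x + j • y) l = x l + (j : ZMod p) * y l := by
  rw [Pi.add_apply, Pi.smul_apply, nsmul_eq_mul]

lemma val_ap {n : ℕ} (x y : Fin n → ZMod p) (j : ℕ) (l : Fin n) :
    ((x + j • y) l).val = ((x l).val + j * (y l).val) % p := by
  have : (x + j • y) l = (((x l).val + j * (y l).val : ℕ) : ZMod p) := by
    rw [ap_apply]
    push_cast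
    rw [ZMod.natCast_zmod_val, ZMod.natCast_zmod_val]
  rw [this, ZMod.val_natCast]

/-- Large sets without `k`-term progressions from random cells. -/
theorem card_pow_le {M K m n R : ℕ} (hM : 0 < M) (hK : 0 < K) (hR : 0 < R)
    (hmk : 2 * m < k) (hkp : k ≤ p) (hm : 0 < m)
    (hc : (K * M) ^ (2 * n) < R ^ m) :
    (dig p M K m).card ^ n ≤ R * (n * p ^ 2 + 1) * r k p n := by
  classical
  have hp0 : 0 < p := hp.out.pos
  set E : (Fin n → Fin (K * M) × Fin (K * M)) → Fin (m + 1) → (Fin n → Fin M) :=
    fun c j l => ⟨(((c l).1 + (j : ℕ) * (c l).2) / K) % M, Nat.mod_lt _ hM⟩ with hE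
  obtain ⟨f, hf⟩ := exists_colouring m R hR E (by
    simp only [Fintype.card_pi, Fintype.card_prod, Fintype.card_fin, prod_const, card_univ]
    rw [← pow_two, ← pow_mul]; exact hc)
  set cell : (Fin n → ZMod p) → (Fin n → Fin M) := fun x l =>
    ⟨M * (x l).val / p, Nat.div_lt_of_lt_mul
      (by rw [mul_comm p M]; exact Nat.mul_lt_mul_of_pos_left (ZMod.val_lt _) hM)⟩ with hcell
  have hDr : dig p M K m ⊆ range p := filter_subset _ _
  rw [← card_pts (p := p) (n := n) hDr]
  refine card_le (by omega) _ (fun x => f (cell x)) ?_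
  intro x y h
  -- the code of the progression
  have hlt : ∀ z : ZMod p, K * M * z.val / p < K * M := fun z =>
    Nat.div_lt_of_lt_mul (by
      rw [mul_comm p (K * M)]; exact Nat.mul_lt_mul_of_pos_left (ZMod.val_lt z) (by positivity))
  set c : Fin n → Fin (K * M) × Fin (K * M) := fun l =>
    (⟨K * M * (x l).val / p, hlt _⟩, ⟨K * M * (y l).val / p, hlt _⟩) with hcdef
  have hmemD : ∀ j < k, ∀ l, ((x + j • y) l).val ∈ dig p M K m := by
    intro j hj l
    have h1 := (h j hj).1
    rw [pts, mem_filter] at h1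
    exact h1.2 l
  have hEc : ∀ j : Fin (m + 1), E c j = cell (x + (j : ℕ) • y) := by
    intro j
    funext l
    apply Fin.ext
    have hjm : (j : ℕ) ≤ m := by omega
    have h1 := hmemD j (by omega) l
    rw [dig, mem_filter, val_ap] at h1
    simp only [hE, hcell, hcdef]
    rw [val_ap]
    exact cell_eq hp0 hM hK hjm h1.2.1
  by_cases hinj : Function.Injective (E c)
  · exfalso
    obtain ⟨i, hi⟩ := hf c hinj
    apply hi
    rw [hEc, hEc]
    have h1 := (h i (by omega)).2
    rw [h1]
    simp
  · rw [Function.Injective] at hinj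
    push Not at hinj
    obtain ⟨i₀, j₀, hij, hne⟩ := hinj
    -- order the two indices
    obtain ⟨i, j, hlt', hEij⟩ : ∃ i j : Fin (m + 1), i < j ∧ E c i = E c j := by
      rcases lt_or_gt_of_ne hne with h1 | h1
      · exact ⟨i₀, j₀, h1, hij⟩
      · exact ⟨j₀, i₀, h1, hij.symm⟩
    have hlt'' : (i : ℕ) < j := hlt'
    refine ⟨i, j - i, by omega, by omega, by omega, ?_⟩
    intro l
    have e1 : (i : ℕ) + (j - i) = j := by omega
    rw [e1]
    have hcell' : M * ((x + (i : ℕ) • y) l).val / p = M * ((x + (j : ℕ) • y) l).val / p := by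
      rw [hEc, hEc] at hEij
      have := congrFun hEij l
      simpa [hcell] using this
    have hv := hmemD j (by omega) l
    have hw := hmemD (i + 2 * (j - i)) (by omega) l
    rw [dig, mem_filter] at hv hw
    refine genuine hM hcell' hv.2.2 hw.2.2 ?_
    have e2 : (x + ((i : ℕ) + 2 * (j - i)) • y) l + (x + (i : ℕ) • y) l =
        2 * (x + (j : ℕ) • y) l := by
      obtain ⟨d, hd⟩ : ∃ d, (j : ℕ) = i + d := ⟨j - i, by omega⟩
      rw [hd, Nat.add_sub_cancel_left]
      rw [ap_apply, ap_apply, ap_apply]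
      push_cast
      ring
    have e3 := congrArg ZMod.val e2
    rw [ZMod.val_add] at e3
    rw [e3]
    have e4 : (2 : ZMod p) * (x + (j : ℕ) • y) l = ((2 * ((x + (j : ℕ) • y) l).val : ℕ) : ZMod p) := by
      simp
    rw [e4, ZMod.val_natCast]

/-- The number of the digits. -/
lemma card_dig {M L m : ℕ} (hM : 0 < M) (hMp : M < p) (hL : 0 < L) :
    p ≤ (dig p M ((m + 1) * L) m).card + (p / M + (p / L + 1)) := by
  classical
  have hp0 : 0 < p := hp.out.pos
  set B1 : Finset ℕ := (range p).filter fun t => (M - 1) * p ≤ M * t with hB1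
  set B2 : Finset ℕ := (range p).filter fun t => (m + 1) * L * (M * t % p) < (m + 1) * p with hB2
  have hsub : range p ⊆ dig p M ((m + 1) * L) m ∪ (B1 ∪ B2) := by
    intro t ht
    simp only [dig, hB1, hB2, mem_union, mem_filter]
    by_cases h1 : (m + 1) * p ≤ (m + 1) * L * (M * t % p)
    · by_cases h2 : M * t < (M - 1) * p
      · exact Or.inl ⟨ht, h1, h2⟩
      · exact Or.inr (Or.inl ⟨ht, by omega⟩)
    · exact Or.inr (Or.inr ⟨ht, by omega⟩)
  have h1 : B1.card ≤ p / M := by
    have : B1.card ≤ (Icc 1 (p / M)).card := by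
      refine card_le_card_of_injOn (fun t => p - t) ?_ ?_
      · intro t ht
        simp only [hB1, coe_filter, mem_range, Set.mem_ofPred_eq] at ht
        simp only [coe_Icc, Set.mem_Icc]
        refine ⟨by omega, ?_⟩
        rw [Nat.le_div_iff_mul_le hM, mul_comm]
        have e : (M - 1) * p + p = M * p := by
          obtain ⟨N, rfl⟩ : ∃ N, M = N + 1 := ⟨M - 1, by omega⟩
          simp only [Nat.add_sub_cancel]; ring
        have e2 : M * (p - t) + M * t = M * p := by
          rw [← mul_add]; congr 1; omega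
        omega
      · intro a ha b hb hab
        simp only [hB1, coe_filter, mem_range, Set.mem_ofPred_eq] at ha hb
        simp only at hab
        omega
    simpa using this
  have h2 : B2.card ≤ p / L + 1 := by
    have : B2.card ≤ (range (p / L + 1)).card := by
      refine card_le_card_of_injOn (fun t => M * t % p) ?_ ?_
      · intro t ht
        simp only [hB2, coe_filter, mem_range, Set.mem_ofPred_eq] at ht
        simp only [coe_range, Set.mem_Iio, Nat.lt_succ_iff]
        rw [Nat.le_div_iff_mul_le hL, mul_comm]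
        have := ht.2
        rw [mul_assoc] at this
        exact (Nat.lt_of_mul_lt_mul_left this).le
      · intro a ha b hb hab
        simp only [hB2, coe_filter, mem_range, Set.mem_ofPred_eq] at ha hb
        simp only at hab
        have hcop : Nat.Coprime p M := by
          rw [hp.out.coprime_iff_not_dvd]
          intro hdvd
          exact absurd (Nat.le_of_dvd hM hdvd) (by omega)
        have h3 : M * a ≡ M * b [MOD p] := hab
        have h4 : a ≡ b [MOD p] := Nat.ModEq.cancel_left_of_coprime hcop h3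
        rw [Nat.ModEq, Nat.mod_eq_of_lt ha.1, Nat.mod_eq_of_lt hb.1] at h4
        exact h4
    simpa using this
  have h3 := card_le_card hsub
  rw [card_range] at h3
  have h4 := card_union_le (dig p M ((m + 1) * L) m) (B1 ∪ B2)
  have h5 := card_union_le B1 B2
  omega

/-- Every number has a small multiple with a small residue. -/
lemma dirichlet {s b : ℕ} (hs : 0 < s) :
    ∃ q : ℕ, ∃ j : ℤ, 0 < q ∧ q ≤ s ∧ |(q : ℤ) * b - j * p| ≤ (p / (s + 1) : ℕ) := by
  have hp0 : (0 : ℝ) < p := by exact_mod_cast hp.out.pos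
  obtain ⟨j, q, hq0, hqs, h⟩ := Real.exists_int_int_abs_mul_sub_le ((b : ℝ) / p) hs
  lift q to ℕ using hq0.le
  refine ⟨q, j, by exact_mod_cast hq0, by exact_mod_cast hqs, ?_⟩
  have h1 : |((q : ℤ) * b - j * p : ℤ)| * (s + 1) ≤ p := by
    have h2 : |(q : ℝ) * (b / p) - j| * (s + 1) ≤ 1 := by
      rw [le_div_iff₀ (by positivity)] at h
      exact_mod_cast h
    have h3 : |(q : ℝ) * b - j * p| * (s + 1) ≤ p := by
      have e : (q : ℝ) * b - j * p = ((q : ℝ) * (b / p) - j) * p := by
        field_simp
      rw [e, abs_mul, abs_of_pos hp0]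
      nlinarith
    exact_mod_cast h3
  have h4 : (|((q : ℤ) * b - j * p : ℤ)|) ≤ (p : ℤ) / (s + 1) :=
    (Int.le_ediv_iff_mul_le (by positivity)).2 h1
  calc |(q : ℤ) * b - j * p| ≤ (p : ℤ) / (s + 1) := h4
    _ = ((p / (s + 1) : ℕ) : ℤ) := by push_cast; rfl

/-- One long gap: steps which are at most as long as the gap do not wrap around. -/
theorem card_pow_le' {s Q n : ℕ} (hs : 0 < s) (hQ0 : 0 < Q) (hQ : ∀ q, 0 < q → q ≤ s → q ∣ Q)
    (hk : 2 * Q < k) (hkp : k ≤ p) :
    (p - p / (s + 1)) ^ n ≤ (n * p ^ 2 + 1) * r k p n := by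
  classical
  have hp0 : 0 < p := hp.out.pos
  have hDr : range (p - p / (s + 1)) ⊆ range p := range_subset_range.2 (Nat.sub_le _ _)
  have hc := card_pts (p := p) (n := n) hDr
  rw [card_range] at hc
  rw [← hc]
  have := card_le (k := k) (R := 1) (by omega) (pts p n (range (p - p / (s + 1)))) (fun _ => 0) ?_
  · simpa using this
  intro x y h
  refine ⟨0, Q, hQ0, by omega, by omega, ?_⟩
  intro l
  obtain ⟨q, j, hq0, hqs, hqj⟩ := dirichlet (p := p) (b := (y l).val) hs
  obtain ⟨d, hd⟩ := hQ q hq0 hqs
  have hd0 : 0 < d := by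
    rcases Nat.eq_zero_or_pos d with h0 | h0
    · subst h0; omega
    · exact h0
  set σ : ℤ := (q : ℤ) * (y l).val - j * p with hσ
  set g : ℕ := p - p / (s + 1) with hg
  have hgp : g + p / (s + 1) = p := by
    have : p / (s + 1) ≤ p := Nat.div_le_self _ _
    omega
  have hmem : ∀ j < k, ((x + j • y) l).val < g := by
    intro j hj
    have h1 := (h j hj).1
    rw [pts, mem_filter] at h1
    exact mem_range.1 (h1.2 l)
  -- one step
  have hstep : ∀ i, i < 2 * d → (((x + ((i + 1) * q) • y) l).val : ℤ) =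
      ((x + (i * q) • y) l).val + σ := by
    intro i hi
    have hle : (i + 1) * q ≤ 2 * Q := by
      rw [hd]
      calc (i + 1) * q ≤ (2 * d) * q := Nat.mul_le_mul_right _ (by omega)
        _ = 2 * (q * d) := by ring
    have h1 := hmem ((i + 1) * q) (by omega)
    have hle' : i * q ≤ (i + 1) * q := Nat.mul_le_mul_right _ (by omega)
    have h2 := hmem (i * q) (by omega)
    have hdvd : (p : ℤ) ∣ (((x + ((i + 1) * q) • y) l).val : ℤ) -
        (((x + (i * q) • y) l).val + σ) := by
      rw [← ZMod.intCast_zmod_eq_zero_iff_dvd]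
      simp only [hσ]
      push_cast
      rw [ZMod.natCast_zmod_val, ZMod.natCast_zmod_val, ZMod.natCast_zmod_val, ap_apply, ap_apply,
        ZMod.natCast_self]
      push_cast
      ring
    have hlt : |(((x + ((i + 1) * q) • y) l).val : ℤ) - (((x + (i * q) • y) l).val + σ)| < p := by
      rw [abs_le] at hqj
      rw [abs_lt]
      constructor <;> omega
    have := Int.eq_zero_of_abs_lt_dvd hdvd hlt
    omega
  have hind : ∀ i, i ≤ 2 * d → (((x + (i * q) • y) l).val : ℤ) = (x l).val + i * σ := by
    intro i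
    induction i with
    | zero => intro _; simp
    | succ i ih =>
      intro hi
      rw [hstep i (by omega), ih (by omega)]
      push_cast; ring
  have e1 := hind d (by omega)
  have e2 := hind (2 * d) le_rfl
  have e3 : d * q = Q := by rw [hd]; ring
  have e4 : 2 * d * q = 2 * Q := by rw [← e3]; ring
  rw [e3] at e1
  rw [e4] at e2
  have e5 : ((x + 0 • y) l).val = (x l).val := by simp
  rw [zero_add, zero_add, e5]
  push_cast at e2
  have : ((((x + (2 * Q) • y) l).val : ℤ)) + (x l).val = 2 * ((x + Q • y) l).val := by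
    rw [e2, e1]; ring
  exact_mod_cast this

end

end Pool.Agent.H192.LD
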